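import Pool.Agent.Helper73.RF.GoalsA

/-! # RF / PQ (MP_c98eff_gt): pointwise consequences of pinching -/

set_option autoImplicit false

open Finset

namespace Pool.Agent.Helper89.RF

open Pool.Agent.Helper73.RF

theorem pq (hv : VinStmt) (hl : LinStmt) : PqStmt := by
  intro T F hF κ hκ hp hs z t
  obtain ⟨hVs, -⟩ := hv T F hF
  -- the evaluated matrix
  set N : Fin 3 → Fin 3 → ℝ := fun i j => F.ev z t (F.M i j) with hN
  have hsN : F.ev z t F.s = ∑ i, N i i := by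
    simp only [FBD.s, map_sum, hN]
  have hsym : ∀ i j, N i j = N j i := fun i j => by
    simp only [hN]; rw [hF.Msymm i j]
  have h0 : 0 ≤ ∑ i, N i i := by rw [← hsN]; exact hs z t
  have hn : ∀ n : Fin 3 → ℝ, ∑ i, n i ^ 2 = 1 → κ * ∑ i, N i i ≤ ∑ i, ∑ j, n i * n j * N i j := by
    intro n hn
    obtain ⟨z', hz'⟩ := hF.fib z n hn
    obtain ⟨h1, h2⟩ := hz' t
    have h3 := hp z' t
    rw [h1 F.s hVs, h2, hsN] at h3
    exact h3
  obtain ⟨r1, r2, r3, r4⟩ := hl N κ hsym hκ h0 hn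
  have hn2 : F.ev z t F.n2 = ∑ i, ∑ j, N i j ^ 2 := by
    simp only [FBD.n2, map_sum, map_pow, hN]
  have hq : F.ev z t F.q = ∑ i, ∑ j, N i j ^ 2 - (1 / 3) * (∑ i, N i i) ^ 2 := by
    rw [FBD.q, map_sub, map_smul, map_pow, hn2, hsN, smul_eq_mul]
  have hM0 : ∀ i j, F.ev z t (F.M0 i j) = N i j - if i = j then (1 / 3) * ∑ l, N l l else 0 := by
    intro i j
    unfold FBD.M0
    rw [map_sub]
    congr 1
    split_ifs with h
    · rw [map_smul, hsN, smul_eq_mul]
    · rw [map_zero]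
  have hc3 : F.ev z t F.c3 = ∑ i, ∑ j, ∑ k, (N i j - if i = j then (1 / 3) * ∑ l, N l l else 0)
        * (N j k - if j = k then (1 / 3) * ∑ l, N l l else 0)
        * (N k i - if k = i then (1 / 3) * ∑ l, N l l else 0) := by
    unfold FBD.c3
    simp only [map_sum, map_mul, hM0]
  refine ⟨?_, ?_, ?_, ?_⟩
  · rw [hn2, hsN]; exact r2
  · rw [hsN]; exact r1
  · rw [hq, hsN]; exact r3
  · rw [hc3, hq]; exact r4

end Pool.Agent.Helper89.RF
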